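import Mathlib
import Pool.Agent.N990.RU.Stm

/-!
# Project RU (helper990), part OSC: the influence of the ends decays

Adapted from `Pool.Agent.N706.RT.OSC` (helper706) to couplings depending on the edge.
-/

set_option autoImplicit false

open MeasureTheory
open Pool.Agent.N988.EA Pool.Agent.N990.RU

namespace Pool.Agent.N2.RU

/-- bounds for integrals -/
lemma int_bd {X : Type} [MeasurableSpace X] (μ : Measure X) [IsProbabilityMeasure μ] {F : X → ℝ}
    (hF : Measurable F) {A B : ℝ} (h : ∀ x, A ≤ F x ∧ F x ≤ B) :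
    Integrable F μ ∧ A ≤ ∫ x, F x ∂μ ∧ ∫ x, F x ∂μ ≤ B := by
  have hi : Integrable F μ := by
    refine Integrable.of_bound hF.aestronglyMeasurable (max |A| |B|)
      (Filter.Eventually.of_forall fun x => ?_)
    rw [Real.norm_eq_abs]
    exact abs_le_max_abs_abs (h x).1 (h x).2
  refine ⟨hi, ?_, ?_⟩
  · have := integral_mono (integrable_const A) hi fun x => (h x).1
    simpa using this
  · have := integral_mono hi (integrable_const B) fun x => (h x).2
    simpa using this

/-- the ends of `H n` from the ends of `H (n + 1)` and the new spin -/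
def cf (s : Bool) (τ : Bool → Ang) (z : Ang) : Bool → Ang := fun t => if t = s then τ t else z

lemma cf_meas (s : Bool) (τ : Bool → Ang) : Measurable (cf s τ) := by
  refine measurable_pi_iff.2 fun t => ?_
  unfold cf
  by_cases h : t = s
  · simp only [h, if_true]
    exact measurable_const
  · simp only [h, if_false]
    exact measurable_id

lemma top_eq (p : ℕ → Fin 2 × Bool) (J : EdgeInf 2 p → ℝ × Ang) (n : ℕ) (f : (Bool → Ang) → ℝ)
    (τ : Bool → Ang) :
    Top p J n f τ = ∫ σ, f (cf (p n).2 τ (σ (Sum.inl (p n).1 : Vert 2 (n + 1))))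
      ∂(gib (n + 1) (rs p J (n + 1)) τ) :=
  rfl

lemma top_meas (h1 : S_BAS) (p : ℕ → Fin 2 × Bool) (J : EdgeInf 2 p → ℝ × Ang) (n : ℕ)
    {f : (Bool → Ang) → ℝ} (hf : Measurable f) : Measurable (Top p J n f) := by
  have hm : Measurable fun z : (Bool → Ang) × (Vert 2 (n + 1) → Ang) =>
      f (fun t => if t = (p n).2 then z.1 t else z.2 (Sum.inl (p n).1 : Vert 2 (n + 1))) := by
    refine hf.comp (measurable_pi_iff.2 fun t => ?_)
    by_cases h : t = (p n).2
    · simp only [h, if_true]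
      exact (measurable_pi_apply _).comp measurable_fst
    · simp only [h, if_false]
      exact (measurable_pi_apply _).comp measurable_snd
  exact (h1 (n + 1) (rs p J (n + 1))).2.2.2.2.2 (Bool → Ang) id _ measurable_id hm

/-- bounds which depend on the kept end -/
lemma top_bd (h1 : S_BAS) (p : ℕ → Fin 2 × Bool) (J : EdgeInf 2 p → ℝ × Ang) (n : ℕ)
    {f : (Bool → Ang) → ℝ} (hf : Measurable f) (τ : Bool → Ang) {A B : ℝ}
    (h : ∀ z, A ≤ f (cf (p n).2 τ z) ∧ f (cf (p n).2 τ z) ≤ B) :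
    A ≤ Top p J n f τ ∧ Top p J n f τ ≤ B := by
  have := (h1 (n + 1) (rs p J (n + 1))).2.2.2.1 τ
  rw [top_eq]
  exact (int_bd (gib (n + 1) (rs p J (n + 1)) τ)
    (F := fun σ => f (cf (p n).2 τ (σ (Sum.inl (p n).1 : Vert 2 (n + 1)))))
    (hf.comp ((cf_meas _ τ).comp (measurable_pi_apply _))) fun σ => h _).2

lemma itT_meas (h1 : S_BAS) (p : ℕ → Fin 2 × Bool) (J : EdgeInf 2 p → ℝ × Ang) (n : ℕ)
    {f : (Bool → Ang) → ℝ} (hf : Measurable f) : ∀ k, Measurable (itT p J n f k)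
  | 0 => hf
  | k + 1 => top_meas h1 p J (n + k) (itT_meas h1 p J n hf k)

lemma itT_bd (h1 : S_BAS) (p : ℕ → Fin 2 × Bool) (J : EdgeInf 2 p → ℝ × Ang) (n : ℕ)
    {f : (Bool → Ang) → ℝ} (hf : Measurable f) {a b : ℝ} (h : ∀ τ, a ≤ f τ ∧ f τ ≤ b) :
    ∀ k τ, a ≤ itT p J n f k τ ∧ itT p J n f k τ ≤ b
  | 0, τ => h τ
  | k + 1, τ => top_bd h1 p J (n + k) (itT_meas h1 p J n hf k) τ
      fun _ => itT_bd h1 p J n hf h k _

lemma itT_add (p : ℕ → Fin 2 × Bool) (J : EdgeInf 2 p → ℝ × Ang) (n : ℕ)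
    (f : (Bool → Ang) → ℝ) (k : ℕ) :
    ∀ j, itT p J (n + k) (itT p J n f k) j = itT p J n f (k + j)
  | 0 => rfl
  | j + 1 => by
    change Top p J (n + k + j) (itT p J (n + k) (itT p J n f k) j) =
      Top p J (n + (k + j)) (itT p J n f (k + j))
    rw [itT_add p J n f k j, Nat.add_assoc]

/-- one block -/
lemma block (h1 : S_BAS) (p : ℕ → Fin 2 × Bool) (J : EdgeInf 2 p → ℝ × Ang) {d : ℝ}
    (d0 : 0 < d)
    (h2 : ∀ (n : ℕ) (f : (Bool → Ang) → ℝ) (a b : ℝ),
      Measurable f → (∀ τ, a ≤ f τ ∧ f τ ≤ b) → ∀ τ : Bool → Ang,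
      d * (∫ z, f (fun t => if t = (p n).2 then τ t else z) ∂ha) + (1 - d) * a ≤ Top p J n f τ ∧
      Top p J n f τ ≤ d * (∫ z, f (fun t => if t = (p n).2 then τ t else z) ∂ha) + (1 - d) * b)
    (hp : ∀ (s : Bool) (k : ℕ), ∃ n, k ≤ n ∧ (p n).2 = s) (m : ℕ) {g : (Bool → Ang) → ℝ}
    (hg : Measurable g) {a b : ℝ} (hab : ∀ τ, a ≤ g τ ∧ g τ ≤ b) :
    ∃ k, ∀ τ τ', itT p J m g k τ ≤ itT p J m g k τ' + (1 - d ^ 2) * (b - a) := by
  classical
  set h := (p m).2 with hh
  have hex : ∃ j, (p (m + j)).2 ≠ h := by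
    obtain ⟨K, hK, hK2⟩ := hp (!h) m
    refine ⟨K - m, ?_⟩
    rw [Nat.add_sub_cancel' hK, hK2]
    exact Bool.not_ne_self h
  set j := Nat.find hex with hj
  have hj1 : (p (m + j)).2 ≠ h := Nat.find_spec hex
  have hj2 : ∀ i < j, (p (m + i)).2 = h := fun i hi => by
    have := Nat.find_min hex hi
    push Not at this
    exact this
  have hj0 : 1 ≤ j := by
    rcases Nat.eq_zero_or_pos j with h0 | h0
    · rw [h0] at hj1
      exact absurd rfl hj1
    · exact h0
  -- the function of the kept end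
  set F : Ang → ℝ := fun w => ∫ z, g (fun t => if t = h then w else z) ∂ha with hF
  have key : ∀ i, i < j → ∀ τ, d * F (τ h) + (1 - d) * a ≤ itT p J m g (i + 1) τ ∧
      itT p J m g (i + 1) τ ≤ d * F (τ h) + (1 - d) * b := by
    intro i
    induction i with
    | zero =>
      intro _ τ
      have h3 := h2 m g a b hg hab τ
      have e : ∀ z : Ang, (fun t => if t = (p m).2 then τ t else z) =
          (fun t => if t = h then τ h else z) := by
        intro z
        funext t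
        by_cases ht : t = h
        · rw [if_pos ht, if_pos ht, ht]
        · rw [if_neg ht, if_neg ht]
      simp only [e] at h3
      exact h3
    | succ i ih =>
      intro hi τ
      have ih' := ih (by omega)
      refine top_bd h1 p J (m + (i + 1)) (itT_meas h1 p J m hg (i + 1)) τ fun z => ?_
      have h3 := ih' (cf (p (m + (i + 1))).2 τ z)
      have h4 : cf (p (m + (i + 1))).2 τ z h = τ h := by
        unfold cf
        rw [if_pos (hj2 (i + 1) hi).symm]
      rw [h4] at h3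
      exact h3
  obtain ⟨i, hi⟩ : ∃ i, j = i + 1 := ⟨j - 1, by omega⟩
  have key' : ∀ τ, d * F (τ h) + (1 - d) * a ≤ itT p J m g j τ ∧
      itT p J m g j τ ≤ d * F (τ h) + (1 - d) * b := by
    rw [hi]
    exact key i (by omega)
  have hGm := itT_meas h1 p J m hg j
  have hGb := itT_bd h1 p J m hg hab j
  refine ⟨j + 1, fun τ τ' => ?_⟩
  have s1 := (h2 (m + j) (itT p J m g j) a b hGm hGb τ).2
  have s2 := (h2 (m + j) (itT p J m g j) a b hGm hGb τ').1
  change Top p J (m + j) (itT p J m g j) τ ≤ Top p J (m + j) (itT p J m g j) τ' + _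
  have i1 := (int_bd ha (F := fun z => itT p J m g j (cf (p (m + j)).2 τ z))
    (hGm.comp (cf_meas _ τ)) fun z => hGb _).1
  have i2 := (int_bd ha (F := fun z => itT p J m g j (cf (p (m + j)).2 τ' z))
    (hGm.comp (cf_meas _ τ')) fun z => hGb _).1
  have s3 : ∫ z, itT p J m g j (cf (p (m + j)).2 τ z) ∂ha ≤
      ∫ z, (itT p J m g j (cf (p (m + j)).2 τ' z) + (1 - d) * (b - a)) ∂ha := by
    refine integral_mono i1 (i2.add (integrable_const _)) fun z => ?_
    have h3 := (key' (cf (p (m + j)).2 τ z)).2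
    have h4 := (key' (cf (p (m + j)).2 τ' z)).1
    have h5 : ∀ ρ : Bool → Ang, cf (p (m + j)).2 ρ z h = z := by
      intro ρ
      unfold cf
      rw [if_neg (Ne.symm hj1)]
    rw [h5] at h3 h4
    change itT p J m g j (cf (p (m + j)).2 τ z) ≤
      itT p J m g j (cf (p (m + j)).2 τ' z) + (1 - d) * (b - a)
    linarith
  rw [integral_add i2 (integrable_const _), integral_const, probReal_univ, one_smul] at s3
  change _ ≤ d * (∫ z, itT p J m g j (cf (p (m + j)).2 τ z) ∂ha) + (1 - d) * b at s1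
  change d * (∫ z, itT p J m g j (cf (p (m + j)).2 τ' z) ∂ha) + (1 - d) * a ≤ _ at s2
  have s4 := mul_le_mul_of_nonneg_left s3 d0.le
  nlinarith [s1, s2, s4]

theorem t_osc (h1 : Pool.Agent.N990.RU.S_BAS) (h2 : Pool.Agent.N990.RU.S_STP) :
    Pool.Agent.N990.RU.S_OSC := by
  intro p J hJ hp n f hf hb ε hε
  obtain ⟨d, d0, d1, hd⟩ := h2 p J hJ
  have main : ∀ N : ℕ, ∃ (k : ℕ) (a b : ℝ), b - a ≤ (1 - d ^ 2) ^ N ∧
      ∀ τ, a ≤ itT p J n f k τ ∧ itT p J n f k τ ≤ b := by
    intro N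
    induction N with
    | zero => exact ⟨0, 0, 1, by simp, hb⟩
    | succ N ih =>
      obtain ⟨k, a, b, hab, hk⟩ := ih
      obtain ⟨j, hj⟩ := block h1 p J d0 hd hp (n + k) (itT_meas h1 p J n hf k) hk
      rw [itT_add] at hj
      have hbd := itT_bd h1 p J n hf hb (k + j)
      set G := itT p J n f (k + j) with hG
      have hbb : BddBelow (Set.range G) := ⟨0, by rintro _ ⟨τ, rfl⟩; exact (hbd τ).1⟩
      have hd2 : 0 ≤ 1 - d ^ 2 := by nlinarith
      refine ⟨k + j, ⨅ τ, G τ, (⨅ τ, G τ) + (1 - d ^ 2) * (b - a), ?_, fun τ => ⟨?_, ?_⟩⟩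
      · rw [pow_succ, add_sub_cancel_left, mul_comm]
        exact mul_le_mul_of_nonneg_right hab hd2
      · exact ciInf_le hbb τ
      · have : G τ - (1 - d ^ 2) * (b - a) ≤ ⨅ τ, G τ := by
          refine le_ciInf fun τ' => ?_
          have := hj τ τ'
          linarith
        linarith
  obtain ⟨N, hN⟩ := exists_pow_lt_of_lt_one hε (show 1 - d ^ 2 < 1 by nlinarith)
  obtain ⟨k, a, b, hab, hk⟩ := main N
  refine ⟨k, fun τ τ' => ?_⟩
  have h3 := (hk τ).2
  have h4 := (hk τ').1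
  linarith

end Pool.Agent.N2.RU
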